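import Mathlib
import Pool.Agent.Q35.GM.Stm

/-! Project GM of helper35 (MP_1acd66_nt): calculus of nice functions. -/

set_option autoImplicit false

namespace Pool.Agent.Q65.GM

open Finset Function NumberField
open Pool.Agent.Q35.SM (Vs)
open Pool.Agent.Q35.GM
open Pool.Agent.Q35.EOW (nv)

theorem nic : S_NIC := by
  intro K _ _ N Z S
  refine ⟨?_, ?_, ?_, ?_, ?_⟩
  · exact {
      bd := ⟨1, fun _ _ => ⟨zero_le_one, le_rfl⟩⟩
      smul := fun _ _ _ _ => rfl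
      cont := fun c ε _ hε => ⟨1, one_pos, fun _ _ _ _ _ _ _ _ => by simpa using hε.le⟩ }
  · intro F1 F2 h1 h2
    obtain ⟨B1, hB1⟩ := h1.bd
    obtain ⟨B2, hB2⟩ := h2.bd
    have hb1 : ∀ P, Z P → F1 P ≤ |B1| := fun P hP => (hB1 P hP).2.trans (le_abs_self _)
    have hb2 : ∀ P, Z P → F2 P ≤ |B2| := fun P hP => (hB2 P hP).2.trans (le_abs_self _)
    refine ⟨⟨|B1| * |B2|, fun P hP => ⟨mul_nonneg (hB1 P hP).1 (hB2 P hP).1,
      mul_le_mul (hb1 P hP) (hb2 P hP) (hB2 P hP).1 (abs_nonneg _)⟩⟩, ?_, ?_⟩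
    · intro a ha P hP
      show F1 (fun i => a i • P i) * F2 (fun i => a i • P i) = F1 P * F2 P
      rw [h1.smul a ha P hP, h2.smul a ha P hP]
    · intro c ε hc hε
      have hM : 0 < |B1| + |B2| + 1 := by positivity
      obtain ⟨δ1, hδ1, H1⟩ := h1.cont c (ε / (|B1| + |B2| + 1)) hc (div_pos hε hM)
      obtain ⟨δ2, hδ2, H2⟩ := h2.cont c (ε / (|B1| + |B2| + 1)) hc (div_pos hε hM)
      refine ⟨min δ1 δ2, lt_min hδ1 hδ2, ?_⟩
      intro P Q hP hQ hw hv hdw hdv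
      have nvn : ∀ (v : InfinitePlace K) (x : Fin (N + 1) → K), 0 ≤ nv v x := fun v x =>
        Real.iSup_nonneg fun _ => apply_nonneg v _
      have nvn' : ∀ (v : FinitePlace K) (x : Fin (N + 1) → K), 0 ≤ nv v x := fun v x =>
        Real.iSup_nonneg fun _ => apply_nonneg v _
      have e1 : |F1 P - F1 Q| ≤ ε / (|B1| + |B2| + 1) := H1 P Q hP hQ hw hv
        (fun i w => (hdw i w).trans (mul_le_mul_of_nonneg_right (min_le_left _ _) (nvn _ _)))
        (fun i v hvS => (hdv i v hvS).trans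
          (mul_le_mul_of_nonneg_right (min_le_left _ _) (nvn' _ _)))
      have e2 : |F2 P - F2 Q| ≤ ε / (|B1| + |B2| + 1) := H2 P Q hP hQ hw hv
        (fun i w => (hdw i w).trans (mul_le_mul_of_nonneg_right (min_le_right _ _) (nvn _ _)))
        (fun i v hvS => (hdv i v hvS).trans
          (mul_le_mul_of_nonneg_right (min_le_right _ _) (nvn' _ _)))
      show |F1 P * F2 P - F1 Q * F2 Q| ≤ ε
      have e3 : F1 P * F2 P - F1 Q * F2 Q = F1 P * (F2 P - F2 Q) + (F1 P - F1 Q) * F2 Q := by ring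
      rw [e3]
      calc |F1 P * (F2 P - F2 Q) + (F1 P - F1 Q) * F2 Q|
          ≤ |F1 P * (F2 P - F2 Q)| + |(F1 P - F1 Q) * F2 Q| := abs_add_le _ _
        _ = F1 P * |F2 P - F2 Q| + |F1 P - F1 Q| * F2 Q := by
            rw [abs_mul, abs_mul, abs_of_nonneg (hB1 P hP).1, abs_of_nonneg (hB2 Q hQ).1]
        _ ≤ |B1| * (ε / (|B1| + |B2| + 1)) + (ε / (|B1| + |B2| + 1)) * |B2| :=
            add_le_add (mul_le_mul (hb1 P hP) e2 (abs_nonneg _) (abs_nonneg _))
              (mul_le_mul e1 (hb2 Q hQ) (hB2 Q hQ).1 (div_pos hε hM).le)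
        _ = (|B1| + |B2|) / (|B1| + |B2| + 1) * ε := by ring
        _ ≤ 1 * ε := by
            refine mul_le_mul_of_nonneg_right ?_ hε.le
            rw [div_le_one hM]
            linarith
        _ = ε := one_mul _
  · intro F G Λ hF hG h0 h1
    refine ⟨⟨1, fun P _ => ⟨h0 _, h1 _⟩⟩, ?_, ?_⟩
    · intro a ha P hP
      show G (F fun i => a i • P i) = G (F P)
      rw [hF.smul a ha P hP]
    · intro c ε hc hε
      have hM : 0 < |Λ| + 1 := by positivity
      obtain ⟨δ, hδ, H⟩ := hF.cont c (ε / (|Λ| + 1)) hc (div_pos hε hM)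
      refine ⟨δ, hδ, ?_⟩
      intro P Q hP hQ hw hv hdw hdv
      have e1 := H P Q hP hQ hw hv hdw hdv
      show |G (F P) - G (F Q)| ≤ ε
      calc |G (F P) - G (F Q)| ≤ Λ * |F P - F Q| := hG _ _
        _ ≤ |Λ| * |F P - F Q| := mul_le_mul_of_nonneg_right (le_abs_self _) (abs_nonneg _)
        _ ≤ |Λ| * (ε / (|Λ| + 1)) := mul_le_mul_of_nonneg_left e1 (abs_nonneg _)
        _ = |Λ| / (|Λ| + 1) * ε := by ring
        _ ≤ 1 * ε := by
            refine mul_le_mul_of_nonneg_right ?_ hε.le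
            rw [div_le_one hM]
            linarith
        _ = ε := one_mul _
  · intro F A hF hA hFA
    refine ⟨⟨A⁻¹, fun P hP => ⟨inv_nonneg.2 (hA.le.trans (hFA P hP)),
      inv_anti₀ hA (hFA P hP)⟩⟩, ?_, ?_⟩
    · intro a ha P hP
      show (F fun i => a i • P i)⁻¹ = (F P)⁻¹
      rw [hF.smul a ha P hP]
    · intro c ε hc hε
      obtain ⟨δ, hδ, H⟩ := hF.cont c (ε * A ^ 2) hc (by positivity)
      refine ⟨δ, hδ, ?_⟩
      intro P Q hP hQ hw hv hdw hdv
      have e1 := H P Q hP hQ hw hv hdw hdv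
      have hp : 0 < F P := hA.trans_le (hFA P hP)
      have hq : 0 < F Q := hA.trans_le (hFA Q hQ)
      show |(F P)⁻¹ - (F Q)⁻¹| ≤ ε
      have e2 : (F P)⁻¹ - (F Q)⁻¹ = -(F P - F Q) / (F P * F Q) := by
        field_simp
        ring
      rw [e2, abs_div, abs_neg, abs_of_pos (mul_pos hp hq), div_le_iff₀ (mul_pos hp hq)]
      refine e1.trans (mul_le_mul_of_nonneg_left ?_ hε.le)
      rw [pow_two]
      exact mul_le_mul (hFA P hP) (hFA Q hQ) hA.le hp.le
  · intro F S' hF hS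
    refine ⟨hF.bd, hF.smul, ?_⟩
    intro c ε hc hε
    obtain ⟨δ, hδ, H⟩ := hF.cont c ε hc hε
    exact ⟨δ, hδ, fun P Q hP hQ hw hv hdw hdv => H P Q hP hQ hw (fun v hvS => hv v (hS hvS)) hdw
      (fun i v hvS => hdv i v (hS hvS))⟩

end Pool.Agent.Q65.GM

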